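import Pool.Agent.H586R3.TP.Stmts

/-! Project H586-TP: task D. -/

set_option autoImplicit false

namespace H586TP.D

open Finset

theorem taskD : H586TP.TaskD := by
  intro α L _ _ X d h
  classical
  obtain ⟨e⟩ : Nonempty ((Σ l : L, Fin (d l)) ↪ X) := by
    refine Function.Embedding.nonempty_of_card_le ?_
    rw [Fintype.card_sigma]
    simpa using h
  have hinj : ∀ l, Function.Injective fun i : Fin (d l) => (e ⟨l, i⟩ : α) := by
    intro l i i' hi
    have h1 := e.injective (Subtype.ext hi)
    simpa using h1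
  refine ⟨fun l => Finset.univ.map ⟨fun i : Fin (d l) => (e ⟨l, i⟩ : α), hinj l⟩, ?_, ?_, ?_⟩
  · intro l
    rw [Finset.card_map, Finset.card_univ, Fintype.card_fin]
  · intro l x hx
    obtain ⟨i, _, rfl⟩ := Finset.mem_map.1 hx
    exact (e ⟨l, i⟩).2
  · intro l l' hll
    rw [Finset.disjoint_left]
    intro x hx hx'
    obtain ⟨i, _, hi⟩ := Finset.mem_map.1 hx
    obtain ⟨i', _, hi'⟩ := Finset.mem_map.1 hx'
    have h1 := e.injective (Subtype.ext (hi.trans hi'.symm))
    exact hll (congrArg Sigma.fst h1)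

end H586TP.D
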